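import Pool.Agent.helper69.DH.SpecR

/-! Project d2: (MP_5823cb_al), part R: module rMON -/

set_option autoImplicit false

open Filter Topology MeasureTheory
open scoped commutatorElement

namespace Pool.Agent.helper90.DH

open Pool.Agent.helper64.D2

theorem rMON_rin {A A' : ℕ → Finset ℤ} {s : ℕ} (h : ∀ t, t ≤ s → A t ⊆ A' t) {r z : ℝ} (hz : rin A r s z) : rin A' r s z := by
  obtain ⟨t, ht, n, hn, hz⟩ := hz
  exact ⟨t, ht, n, h t ht hn, hz⟩

theorem rMON_rAc {A A' : ℕ → Finset ℤ} {s : ℕ} (h : ∀ t, t ≤ s → A t ⊆ A' t) (r z : ℝ) : rAc A r s z ⊆ rAc A' r s z := by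
  intro t ht
  unfold rAc at ht ⊢
  rw [Finset.mem_filter] at ht ⊢
  obtain ⟨h1, n, hn, h2⟩ := ht
  exact ⟨h1, n, h t (Nat.lt_succ_iff.1 (Finset.mem_range.1 h1)) hn, h2⟩

theorem rMON_rhp (P : RQ) {H H' : ℕ → Finset ℤ} {s : ℕ} (h : ∀ t, t ≤ s → H t ⊆ H' t) (e : ℕ) (n : ℤ) :
    rhp P H e s n ≤ rhp P H' e s n := by
  classical
  unfold rhp
  refine Finset.card_le_card ?_
  intro k hk
  rw [Finset.mem_filter] at hk ⊢
  exact ⟨hk.1, rMON_rin h hk.2⟩

theorem rMON_rdg (P : RQ) {K K' : ℕ → Finset ℤ} {s : ℕ} (h : ∀ t, t ≤ s → K t ⊆ K' t) (e : ℕ) (m : ℤ) :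
    rdg P K e s m ≤ rdg P K' e s m := by
  classical
  unfold rdg
  refine Finset.card_le_card ?_
  intro k hk
  rw [Finset.mem_filter] at hk ⊢
  exact ⟨hk.1, rMON_rin h hk.2⟩

theorem rMON : rMON_stmt := by
  classical
  intro P H K H' K' e s m hHK
  have hH : ∀ t, t ≤ s → H t ⊆ H' t := fun t ht => (hHK t ht).1
  have hK : ∀ t, t ≤ s → K t ⊆ K' t := fun t ht => (hHK t ht).2
  refine ⟨?_, ?_, ?_, rMON_rdg P hK e m, rMON_rhp P hH e m⟩
  · intro h
    unfold rT2 at h ⊢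
    exact h.trans (Finset.card_le_card (rMON_rAc hH _ _))
  · intro h
    unfold rT3 at h ⊢
    refine h.trans_le ?_
    refine Nat.mul_le_mul_left _ ?_
    refine Nat.add_le_add ?_ ?_
    · exact Finset.sum_le_sum fun i _ => rMON_rhp P hH e _
    · exact Nat.mul_le_mul_left _ (rMON_rdg P hK e m)
  · intro h
    unfold rCR at h ⊢
    refine h.trans ?_
    refine Nat.mul_le_mul_left _ ?_
    refine Finset.card_le_card ?_
    intro k hk
    rw [Finset.mem_filter] at hk ⊢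
    refine ⟨hk.1, ?_⟩
    rcases hk.2 with h1 | h1
    · exact Or.inl (rMON_rin hH h1)
    · exact Or.inr (h1.trans (Nat.mul_le_mul_left _ (rMON_rdg P hK e _)))

end Pool.Agent.helper90.DH
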